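import Pool.Agent.W787.KG.Defs

set_option autoImplicit false

open MeasureTheory Set Metric Filter Topology Real

noncomputable section

namespace Pool.Agent.W274.KG

open Pool.Agent.W787.KG

def g (p : ℕ) (u : ℝ) : ℝ := 1 / (1 + |u|) ^ p

theorem g_pos (p : ℕ) (u : ℝ) : 0 < g p u := by unfold g; positivity

theorem g_le_one (p : ℕ) (u : ℝ) : g p u ≤ 1 := by
  unfold g
  have h : (1 : ℝ) ≤ (1 + |u|) ^ p := one_le_pow₀ (by linarith [abs_nonneg u])
  rw [div_le_one (by positivity)]
  exact h

theorem g_int (p : ℕ) (hp : 2 ≤ p) : Integrable (g p) := by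
  have h : ((Module.finrank ℝ ℝ : ℕ) : ℝ) < (p : ℝ) := by
    simp only [Module.finrank_self]
    exact_mod_cast (by omega : 1 < p)
  have h2 := integrable_one_add_norm (μ := (volume : Measure ℝ)) h
  refine h2.congr (Eventually.of_forall fun x => ?_)
  simp only [g, Real.norm_eq_abs]
  rw [Real.rpow_neg (by positivity), Real.rpow_natCast, one_div]

theorem g_cont (p : ℕ) : Continuous (g p) := by
  unfold g
  refine Continuous.div continuous_const (by fun_prop) fun x => by positivity

theorem g_half (p : ℕ) (Y v : ℝ) (h : |Y| ≤ 1 + 2 * |v|) : g p v ≤ 2 ^ p * g p Y := by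
  unfold g
  rw [mul_one_div, div_le_div_iff₀ (by positivity) (by positivity), one_mul, ← mul_pow]
  exact pow_le_pow_left₀ (by positivity) (by linarith) p

theorem g_mul (p : ℕ) (Y u : ℝ) : g p (Y - u) * g p u ≤ 2 ^ p * g p Y * (g p u + g p (Y - u)) := by
  have tri : |Y| ≤ |Y - u| + |u| := by
    have := abs_add_le (Y - u) u
    simpa using this
  have h1 := g_pos p u
  have h2 := g_pos p (Y - u)
  have h3 := g_pos p Y
  rcases le_total |u| |Y - u| with h | h
  · have h4 := g_half p Y (Y - u) (by linarith)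
    have h5 : 0 < 2 ^ p * g p Y := by positivity
    nlinarith
  · have h4 := g_half p Y u (by linarith)
    have h5 : 0 < 2 ^ p * g p Y := by positivity
    nlinarith

def D (u : ℝ) : ℝ := indicator (Icc (-1) 1) (fun u => 1 / √|u|) u

theorem D_nonneg (u : ℝ) : 0 ≤ D u := by
  unfold D
  apply indicator_nonneg
  intro x _
  positivity

theorem D_int : Integrable D := by
  have h0 : IntegrableOn (fun u : ℝ => 1 / √|u|) (Ioc 0 1) := by
    have h := intervalIntegral.intervalIntegrable_rpow' (a := 0) (b := 1) (r := -(1 / 2 : ℝ))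
      (by norm_num)
    rw [intervalIntegrable_iff_integrableOn_Ioc_of_le (by norm_num)] at h
    refine h.congr_fun ?_ measurableSet_Ioc
    intro x hx
    simp only
    rw [abs_of_pos hx.1, Real.sqrt_eq_rpow, Real.rpow_neg hx.1.le, one_div (x ^ (1 / 2 : ℝ))]
  have h1 : IntegrableOn (fun u : ℝ => 1 / √|u|) (Ico (-1) 0) := by
    have h := (h0.integrable_indicator measurableSet_Ioc).comp_neg
    rw [← integrable_indicator_iff measurableSet_Ico]
    refine h.congr (Eventually.of_forall fun x => ?_)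
    simp only [indicator, mem_Ioc, mem_Ico, abs_neg]
    congr 1
    apply propext
    constructor
    · rintro ⟨a, b⟩; constructor <;> linarith
    · rintro ⟨a, b⟩; constructor <;> linarith
  have h2 : IntegrableOn (fun u : ℝ => 1 / √|u|) {(0 : ℝ)} := by
    simp
  unfold D
  change Integrable (indicator (Icc (-1) 1) (fun u => 1 / √|u|))
  rw [integrable_indicator_iff measurableSet_Icc]
  have h3 : Icc (-1 : ℝ) 1 ⊆ (Ico (-1) 0 ∪ {0}) ∪ Ioc 0 1 := by
    intro x hx
    rcases lt_trichotomy x 0 with h | h | h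
    · exact Or.inl (Or.inl ⟨hx.1, h⟩)
    · exact Or.inl (Or.inr h)
    · exact Or.inr ⟨h, hx.2⟩
  exact ((h1.union h2).union h0).mono_set h3

theorem inv_le_D (u : ℝ) : 1 / √|u| ≤ D u + 1 := by
  by_cases h : u ∈ Icc (-1 : ℝ) 1
  · unfold D
    rw [indicator_of_mem h]
    linarith
  · have h1 : 1 ≤ |u| := by
      by_contra hc
      push Not at hc
      rw [abs_lt] at hc
      exact h ⟨hc.1.le, hc.2.le⟩
    have h2 : 1 ≤ √|u| := by
      rw [Real.one_le_sqrt]
      exact h1
    have h3 : 1 / √|u| ≤ 1 := by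
      rw [div_le_one (by linarith)]
      exact h2
    linarith [D_nonneg u]

/-- dominating function -/
theorem dom_A (p : ℕ) (Y u : ℝ) : 1 / √|u| * g p (Y - u) * g p u ≤
    2 ^ p * g p Y * (2 * D u + g p u + g p (Y - u)) := by
  have h1 := g_mul p Y u
  have h2 := inv_le_D u
  have h3 := D_nonneg u
  have h4 := g_pos p u
  have h5 := g_pos p (Y - u)
  have h6 := g_le_one p u
  have h7 := g_le_one p (Y - u)
  have h8 := g_pos p Y
  have h9 : 0 ≤ 1 / √|u| := by positivity
  have h10 : 0 < 2 ^ p * g p Y := by positivity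
  calc 1 / √|u| * g p (Y - u) * g p u = 1 / √|u| * (g p (Y - u) * g p u) := by ring
    _ ≤ 1 / √|u| * (2 ^ p * g p Y * (g p u + g p (Y - u))) := mul_le_mul_of_nonneg_left h1 h9
    _ = 2 ^ p * g p Y * (1 / √|u| * (g p u + g p (Y - u))) := by ring
    _ ≤ 2 ^ p * g p Y * ((D u + 1) * (g p u + g p (Y - u))) := by
        apply mul_le_mul_of_nonneg_left _ h10.le
        exact mul_le_mul_of_nonneg_right h2 (by linarith)
    _ ≤ 2 ^ p * g p Y * (2 * D u + g p u + g p (Y - u)) := by
        apply mul_le_mul_of_nonneg_left _ h10.le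
        nlinarith

theorem g_sub_int (p : ℕ) (hp : 2 ≤ p) (Y : ℝ) : Integrable (fun u => g p (Y - u)) :=
  (g_int p hp).comp_sub_left Y

theorem g_sub_val (p : ℕ) (Y : ℝ) : ∫ u, g p (Y - u) = ∫ u, g p u :=
  integral_sub_left_eq_self (g p) volume Y

theorem phi_A (p : ℕ) (hp : 2 ≤ p) (Y : ℝ) :
    Integrable (fun u => 1 / √|u| * g p (Y - u) * g p u) ∧
    ∫ u, 1 / √|u| * g p (Y - u) * g p u ≤
      (2 ^ p * (2 * (∫ u, D u) + 2 * ∫ u, g p u) + 1) * g p Y := by
  have hd : Integrable (fun u => 2 ^ p * g p Y * (2 * D u + g p u + g p (Y - u))) :=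
    (((D_int.const_mul 2).add (g_int p hp)).add (g_sub_int p hp Y)).const_mul _
  have hm : AEStronglyMeasurable (fun u => 1 / √|u| * g p (Y - u) * g p u) volume := by
    apply Measurable.aestronglyMeasurable
    have h1 : Measurable (g p) := (g_cont p).measurable
    have h2 : Measurable (fun u => g p (Y - u)) := ((g_cont p).comp (by fun_prop)).measurable
    have h3 : Measurable (fun u : ℝ => 1 / √|u|) := by
      have : Measurable (fun u : ℝ => √|u|) := (by fun_prop : Continuous fun u : ℝ => √|u|).measurable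
      exact measurable_const.div this
    exact (h3.mul h2).mul h1
  have hi : Integrable (fun u => 1 / √|u| * g p (Y - u) * g p u) := by
    refine hd.mono' hm (Eventually.of_forall fun u => ?_)
    rw [Real.norm_eq_abs, abs_of_nonneg]
    · exact dom_A p Y u
    · have h4 := g_pos p u
      have h5 := g_pos p (Y - u)
      positivity
  refine ⟨hi, ?_⟩
  have h1 := integral_mono hi hd (fun u => dom_A p Y u)
  have h2 : ∫ u, 2 ^ p * g p Y * (2 * D u + g p u + g p (Y - u)) =
      2 ^ p * g p Y * (2 * (∫ u, D u) + 2 * ∫ u, g p u) := by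
    rw [integral_const_mul]
    congr 1
    have a1 : ∫ u, (2 * D u + g p u + g p (Y - u)) =
        (∫ u, (2 * D u + g p u)) + ∫ u, g p (Y - u) :=
      integral_add ((D_int.const_mul 2).add (g_int p hp)) (g_sub_int p hp Y)
    have a2 : ∫ u, (2 * D u + g p u) = (∫ u, 2 * D u) + ∫ u, g p u :=
      integral_add (D_int.const_mul 2) (g_int p hp)
    rw [a1, a2, integral_const_mul, g_sub_val]
    ring
  rw [h2] at h1
  have h3 := g_pos p Y
  nlinarith

theorem phi_B (p : ℕ) (hp : 2 ≤ p) (Y : ℝ) :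
    Integrable (fun u => g p (Y - u) * g p u) ∧
    ∫ u, g p (Y - u) * g p u ≤ (2 ^ p * (2 * ∫ u, g p u) + 1) * g p Y := by
  have hd : Integrable (fun u => 2 ^ p * g p Y * (g p u + g p (Y - u))) :=
    ((g_int p hp).add (g_sub_int p hp Y)).const_mul _
  have hm : AEStronglyMeasurable (fun u => g p (Y - u) * g p u) volume := by
    apply Continuous.aestronglyMeasurable
    exact ((g_cont p).comp (by fun_prop)).mul (g_cont p)
  have hi : Integrable (fun u => g p (Y - u) * g p u) := by
    refine hd.mono' hm (Eventually.of_forall fun u => ?_)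
    rw [Real.norm_eq_abs, abs_of_nonneg]
    · exact g_mul p Y u
    · have h4 := g_pos p u
      have h5 := g_pos p (Y - u)
      positivity
  refine ⟨hi, ?_⟩
  have h1 := integral_mono hi hd (fun u => g_mul p Y u)
  have h2 : ∫ u, 2 ^ p * g p Y * (g p u + g p (Y - u)) =
      2 ^ p * g p Y * (2 * ∫ u, g p u) := by
    rw [integral_const_mul]
    congr 1
    rw [integral_add (g_int p hp) (g_sub_int p hp Y), g_sub_val]
    ring
  rw [h2] at h1
  have h3 := g_pos p Y
  nlinarith

theorem int_g_nonneg (p : ℕ) : 0 ≤ ∫ u, g p u :=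
  integral_nonneg fun u => (g_pos p u).le

theorem int_D_nonneg : 0 ≤ ∫ u, D u :=
  integral_nonneg fun u => D_nonneg u

theorem oneA : S_1A := by
  intro p hp
  refine ⟨2 ^ p * (2 * (∫ u, D u) + 2 * ∫ u, g p u) + 1, ?_, ?_⟩
  · have := int_g_nonneg p
    have := int_D_nonneg
    positivity
  intro σ y hσ
  obtain ⟨hi, hb⟩ := phi_A p hp (σ * y)
  have hs : 0 < √σ := Real.sqrt_pos.2 hσ
  have key : (fun z : ℝ => 1 / √|z| * (1 / (1 + σ * |y - z|) ^ p) * (1 / (1 + σ * |z|) ^ p)) =
      fun z => √σ * (fun u => 1 / √|u| * g p (σ * y - u) * g p u) (σ * z) := by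
    funext z
    simp only [g]
    have e1 : |σ * z| = σ * |z| := by rw [abs_mul, abs_of_pos hσ]
    have e2 : |σ * y - σ * z| = σ * |y - z| := by rw [← mul_sub, abs_mul, abs_of_pos hσ]
    rw [e1, e2, Real.sqrt_mul hσ.le]
    have e3 : 1 / √|z| = √σ * (1 / (√σ * √|z|)) := by
      rw [mul_one_div, div_mul_cancel_left₀ hs.ne', one_div]
    rw [e3]
    ring
  rw [key]
  constructor
  · exact (hi.comp_mul_left' hσ.ne').const_mul _
  · rw [integral_const_mul, Measure.integral_comp_mul_left (fun u => 1 / √|u| * g p (σ * y - u) * g p u) σ,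
      abs_of_pos (inv_pos.2 hσ), smul_eq_mul]
    have e4 : g p (σ * y) = 1 / (1 + σ * |y|) ^ p := by
      simp only [g]
      rw [abs_mul, abs_of_pos hσ]
    rw [← e4]
    have e5 : √σ * (σ⁻¹ * ∫ u, 1 / √|u| * g p (σ * y - u) * g p u) =
        (1 / √σ) * ∫ u, 1 / √|u| * g p (σ * y - u) * g p u := by
      rw [← mul_assoc]
      congr 1
      have : σ = √σ * √σ := (Real.mul_self_sqrt hσ.le).symm
      rw [one_div]
      nth_rewrite 2 [this]
      rw [mul_inv, ← mul_assoc, mul_inv_cancel₀ hs.ne', one_mul]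
    rw [e5]
    calc (1 / √σ) * ∫ u, 1 / √|u| * g p (σ * y - u) * g p u ≤
        (1 / √σ) * ((2 ^ p * (2 * (∫ u, D u) + 2 * ∫ u, g p u) + 1) * g p (σ * y)) :=
          mul_le_mul_of_nonneg_left hb (by positivity)
      _ = _ := by ring

theorem oneB : S_1B := by
  intro p hp
  refine ⟨2 ^ p * (2 * ∫ u, g p u) + 1, ?_, ?_⟩
  · have := int_g_nonneg p
    positivity
  intro σ y hσ
  obtain ⟨hi, hb⟩ := phi_B p hp (σ * y)
  have key : (fun z : ℝ => (1 / (1 + σ * |y - z|) ^ p) * (1 / (1 + σ * |z|) ^ p)) =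
      fun z => (fun u => g p (σ * y - u) * g p u) (σ * z) := by
    funext z
    simp only [g]
    have e1 : |σ * z| = σ * |z| := by rw [abs_mul, abs_of_pos hσ]
    have e2 : |σ * y - σ * z| = σ * |y - z| := by rw [← mul_sub, abs_mul, abs_of_pos hσ]
    rw [e1, e2]
  rw [key]
  constructor
  · exact hi.comp_mul_left' hσ.ne'
  · rw [Measure.integral_comp_mul_left (fun u => g p (σ * y - u) * g p u) σ,
      abs_of_pos (inv_pos.2 hσ), smul_eq_mul]
    have e4 : g p (σ * y) = 1 / (1 + σ * |y|) ^ p := by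
      simp only [g]
      rw [abs_mul, abs_of_pos hσ]
    rw [← e4]
    calc σ⁻¹ * ∫ u, g p (σ * y - u) * g p u ≤
        σ⁻¹ * ((2 ^ p * (2 * ∫ u, g p u) + 1) * g p (σ * y)) :=
          mul_le_mul_of_nonneg_left hb (by positivity)
      _ = _ := by rw [div_eq_mul_inv]; ring

end Pool.Agent.W274.KG
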